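import Pool.Agent.helper78.FS.Spec

/-!
# MP_55808c_co, project FS, row CHI: Euler characteristic of a minimal cycle (helper8)
-/

namespace Pool.Agent.helper78.FS

open Finset Real
open Classical

noncomputable section

theorem CHI_z2 (x : ZMod 2) : x = 0 ∨ x = 1 := by
  revert x; decide

theorem CHI_add0 (x y : ZMod 2) (h : x + y = 0) : x = y := by
  revert x y; decide

/-- the number of 2-subsets of a 3-set which contain a given element. -/
theorem CHI_cnt {V : Type} [DecidableEq V] (τ : Finset V) (hτ : τ.card = 3) (v : V) :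
    ((τ.powersetCard 2).filter (fun e => v ∈ e)).card = if v ∈ τ then 2 else 0 := by
  split_ifs with hv
  · have h : (τ.powersetCard 2).filter (fun e => v ∈ e) = (τ.erase v).image (fun w => ({v, w} : Finset V)) := by
      ext e
      simp only [mem_filter, mem_powersetCard, mem_image, mem_erase]
      constructor
      · rintro ⟨⟨hs, hc⟩, hve⟩
        obtain ⟨a, b, hab, rfl⟩ := Finset.card_eq_two.1 hc
        rcases Finset.mem_insert.1 hve with rfl | hb
        · exact ⟨b, ⟨fun h => hab h.symm, hs (by simp)⟩, rfl⟩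
        · rw [Finset.mem_singleton] at hb
          subst hb
          exact ⟨a, ⟨hab, hs (by simp)⟩, Finset.pair_comm _ _⟩
      · rintro ⟨w, ⟨hw, hwt⟩, rfl⟩
        refine ⟨⟨?_, Finset.card_pair (Ne.symm hw)⟩, by simp⟩
        intro u hu
        rcases Finset.mem_insert.1 hu with rfl | hu
        · exact hv
        · rw [Finset.mem_singleton] at hu
          subst hu
          exact hwt
    rw [h, Finset.card_image_of_injOn, Finset.card_erase_of_mem hv, hτ]
    intro a ha b hb hab
    simp only [coe_erase, Set.mem_sdiff, mem_coe, Set.mem_singleton_iff] at ha hb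
    have : a ∈ ({v, b} : Finset V) := by
      have h0 : a ∈ ({v, a} : Finset V) := by simp
      have hab' : ({v, a} : Finset V) = {v, b} := hab
      rwa [hab'] at h0
    rcases Finset.mem_insert.1 this with h1 | h1
    · exact absurd h1 ha.2
    · exact Finset.mem_singleton.1 h1
  · rw [Finset.card_eq_zero, Finset.filter_eq_empty_iff]
    intro e he hve
    exact hv ((Finset.mem_powersetCard.1 he).1 hve)

theorem CHI_eds {V : Type} [DecidableEq V] (z : Finset (Finset V)) (e : Finset V) :
    e ∈ eds z ↔ ∃ τ ∈ z, e ⊆ τ ∧ e.card = 2 := by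
  unfold eds
  simp only [Finset.mem_biUnion, Finset.mem_powersetCard]

theorem CHI_verts {V : Type} [DecidableEq V] (z : Finset (Finset V)) (v : V) :
    v ∈ verts z ↔ ∃ τ ∈ z, v ∈ τ := by
  unfold verts
  simp only [Finset.mem_biUnion, id]

theorem CHI : CHI_stmt := by
  intro hLIN V _ G z z' hz hzz hz' heds hmin
  -- the matrices
  let A : Matrix {e // e ∈ eds z} {v // v ∈ verts z} (ZMod 2) :=
    fun e v => if v.1 ∈ e.1 then 1 else 0
  let B : Matrix {τ // τ ∈ z'} {e // e ∈ eds z} (ZMod 2) :=
    fun τ e => if e.1 ⊆ τ.1 then 1 else 0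
  have key := hLIN {v // v ∈ verts z} {e // e ∈ eds z} {τ // τ ∈ z'} A B (fun _ => 1)
    (fun τ => if τ.1 ∈ z then 1 else 0) ?_ ?_ ?_
  · simpa [Fintype.card_coe] using key
  · -- `B * A = 0`
    ext τ v
    rw [Matrix.mul_apply, Matrix.zero_apply]
    have h1 : ∀ e : {e // e ∈ eds z}, B τ e * A e v = if (e.1 ⊆ τ.1 ∧ v.1 ∈ e.1) then 1 else 0 := by
      intro e
      simp only [A, B]
      split_ifs <;> simp_all
    rw [Finset.sum_congr rfl (fun e _ => h1 e), Finset.sum_boole]
    have hcard : (Finset.univ.filter (fun e : {e // e ∈ eds z} => e.1 ⊆ τ.1 ∧ v.1 ∈ e.1)).card =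
        ((τ.1.powersetCard 2).filter (fun e => v.1 ∈ e)).card := by
      refine Finset.card_bij (fun e _ => e.1) ?_ ?_ ?_
      · intro e he
        simp only [mem_filter, mem_univ, true_and] at he
        obtain ⟨σ, _, _, hc⟩ := (CHI_eds z e.1).1 e.2
        exact Finset.mem_filter.2 ⟨Finset.mem_powersetCard.2 ⟨he.1, hc⟩, he.2⟩
      · intro e _ e' _ h
        exact Subtype.ext h
      · intro e he
        rw [Finset.mem_filter, Finset.mem_powersetCard] at he
        have hmem : e ∈ eds z := by
          rw [← heds]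
          exact (CHI_eds z' e).2 ⟨τ.1, τ.2, he.1.1, he.1.2⟩
        exact ⟨⟨e, hmem⟩, by simpa using ⟨he.1.1, he.2⟩, rfl⟩
    rw [hcard, CHI_cnt τ.1 (hz' τ.1 τ.2).1 v.1]
    split_ifs
    · exact (by decide : ((2 : ℕ) : ZMod 2) = 0)
    · simp
  · -- the kernel of `A`
    intro x hx
    have hedge : ∀ p (hp : p ∈ verts z) q (hq : q ∈ verts z), p ≠ q → ({p, q} : Finset V) ∈ eds z →
        x ⟨p, hp⟩ = x ⟨q, hq⟩ := by
      intro p hp q hq hpq he
      have h := congrFun hx ⟨_, he⟩
      simp only [Matrix.mulVec, dotProduct, Pi.zero_apply, A] at h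
      have h2 : ∑ v : {v // v ∈ verts z}, (if v.1 ∈ ({p, q} : Finset V) then (1 : ZMod 2) else 0) * x v =
          x ⟨p, hp⟩ + x ⟨q, hq⟩ := by
        have hne : (⟨p, hp⟩ : {v // v ∈ verts z}) ≠ ⟨q, hq⟩ := fun h => hpq (congrArg Subtype.val h)
        rw [← Finset.sum_pair (f := fun v => x v) hne, ← Finset.sum_subset (Finset.subset_univ {⟨p, hp⟩, ⟨q, hq⟩})]
        · refine Finset.sum_congr rfl fun v hv => ?_
          have : v.1 ∈ ({p, q} : Finset V) := by
            rcases Finset.mem_insert.1 hv with rfl | hv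
            · simp
            · rw [Finset.mem_singleton] at hv
              subst hv
              simp
          rw [if_pos this, one_mul]
        · intro v _ hv
          have : v.1 ∉ ({p, q} : Finset V) := by
            intro h0
            apply hv
            rcases Finset.mem_insert.1 h0 with h1 | h1
            · exact Finset.mem_insert.2 (Or.inl (Subtype.ext h1))
            · exact Finset.mem_insert.2 (Or.inr (Finset.mem_singleton.2 (Subtype.ext (Finset.mem_singleton.1 h1))))
          rw [if_neg this, zero_mul]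
      rw [h2] at h
      exact CHI_add0 _ _ h
    have hconst : ∀ τ ∈ z, ∀ p (hp : p ∈ verts z) q (hq : q ∈ verts z), p ∈ τ → q ∈ τ →
        x ⟨p, hp⟩ = x ⟨q, hq⟩ := by
      intro τ hτ p hp q hq hpt hqt
      by_cases hpq : p = q
      · subst hpq; rfl
      · refine hedge p hp q hq hpq ((CHI_eds z _).2 ⟨τ, hτ, ?_, Finset.card_pair hpq⟩)
        intro u hu
        rcases Finset.mem_insert.1 hu with rfl | hu
        · exact hpt
        · rw [Finset.mem_singleton] at hu
          subst hu
          exact hqt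
    let y : Finset (Finset V) := z.filter (fun τ => ∀ v ∈ τ, ∀ hv : v ∈ verts z, x ⟨v, hv⟩ = 1)
    have hmy : ∀ τ, τ ∈ y ↔ τ ∈ z ∧ ∀ v ∈ τ, ∀ hv : v ∈ verts z, x ⟨v, hv⟩ = 1 := fun τ => by
      simp only [y, Finset.mem_filter]
    have hy : Cyc G y := by
      refine ⟨fun τ hτ => hz.1 τ ((hmy τ).1 hτ).1, fun e he => ?_⟩
      by_cases hex : ∃ τ ∈ z, e ⊆ τ
      · obtain ⟨τ₀, hτ₀, heτ₀⟩ := hex
        obtain ⟨p, q, hpq, rfl⟩ := Finset.card_eq_two.1 he
        have hpt : p ∈ τ₀ := heτ₀ (by simp)
        have hpv : p ∈ verts z := (CHI_verts z p).2 ⟨τ₀, hτ₀, hpt⟩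
        rcases CHI_z2 (x ⟨p, hpv⟩) with h0 | h1
        · have : y.filter (fun τ => ({p, q} : Finset V) ⊆ τ) = ∅ := by
            rw [Finset.filter_eq_empty_iff]
            intro τ hτ hs
            have := ((hmy τ).1 hτ).2 p (hs (by simp)) hpv
            rw [h0] at this
            exact absurd this (by decide)
          rw [this]
          simp
        · have : y.filter (fun τ => ({p, q} : Finset V) ⊆ τ) = z.filter (fun τ => ({p, q} : Finset V) ⊆ τ) := by
            ext τ
            rw [Finset.mem_filter, hmy, Finset.mem_filter]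
            constructor
            · rintro ⟨⟨h2, _⟩, h3⟩
              exact ⟨h2, h3⟩
            · rintro ⟨h2, h3⟩
              refine ⟨⟨h2, fun v hv hvz => ?_⟩, h3⟩
              rw [← h1]
              exact hconst τ h2 v hvz p hpv hv (h3 (by simp))
          rw [this]
          exact hz.2 _ he
      · have : y.filter (fun τ => e ⊆ τ) = ∅ := by
          rw [Finset.filter_eq_empty_iff]
          intro τ hτ hs
          exact hex ⟨τ, ((hmy τ).1 hτ).1, hs⟩
        rw [this]
        simp
    rcases hmin y hy (fun τ hτ => hzz ((hmy τ).1 hτ).1) with h | h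
    · left
      funext v
      obtain ⟨τ, hτ, hvτ⟩ := (CHI_verts z v.1).1 v.2
      rcases CHI_z2 (x v) with h0 | h1
      · exact h0
      · exfalso
        have : τ ∈ y := by
          refine (hmy τ).2 ⟨hτ, fun w hw hwz => ?_⟩
          rw [← h1]
          exact hconst τ hτ w hwz v.1 v.2 hw hvτ
        rw [h] at this
        exact absurd this (Finset.notMem_empty _)
    · right
      funext v
      obtain ⟨τ, hτ, hvτ⟩ := (CHI_verts z v.1).1 v.2
      have : τ ∈ y := by rw [h]; exact hτ
      exact ((hmy τ).1 this).2 v.1 hvτ v.2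
  · -- the left kernel of `B`
    intro w hw
    let y : Finset (Finset V) := z'.filter (fun τ => ∃ h : τ ∈ z', w ⟨τ, h⟩ = 1)
    have hmy : ∀ τ, τ ∈ y ↔ ∃ h : τ ∈ z', w ⟨τ, h⟩ = 1 := fun τ => by
      simp only [y, Finset.mem_filter]
      exact ⟨fun h => h.2, fun h => ⟨h.1, h⟩⟩
    have hy : Cyc G y := by
      refine ⟨fun τ hτ => hz' τ ((hmy τ).1 hτ).1, fun e he => ?_⟩
      by_cases hex : e ∈ eds z
      · have h := congrFun hw ⟨e, hex⟩
        simp only [Matrix.vecMul, dotProduct, Pi.zero_apply, B] at h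
        have h1 : ∀ τ : {τ // τ ∈ z'}, w τ * (if e ⊆ τ.1 then (1 : ZMod 2) else 0) =
            if (w τ = 1 ∧ e ⊆ τ.1) then 1 else 0 := by
          intro τ
          rcases CHI_z2 (w τ) with h0 | h1
          · rw [h0, zero_mul, if_neg]
            rintro ⟨h2, _⟩
            exact absurd h2 (by decide)
          · rw [h1, one_mul]
            by_cases h3 : e ⊆ τ.1
            · rw [if_pos h3, if_pos ⟨rfl, h3⟩]
            · rw [if_neg h3, if_neg (fun h4 => h3 h4.2)]
        rw [Finset.sum_congr rfl (fun τ _ => h1 τ), Finset.sum_boole] at h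
        have hcard : (Finset.univ.filter (fun τ : {τ // τ ∈ z'} => w τ = 1 ∧ e ⊆ τ.1)).card =
            (y.filter (fun τ => e ⊆ τ)).card := by
          refine Finset.card_bij (fun τ _ => τ.1) ?_ ?_ ?_
          · intro τ hτ
            simp only [mem_filter, mem_univ, true_and] at hτ
            exact Finset.mem_filter.2 ⟨(hmy τ.1).2 ⟨τ.2, hτ.1⟩, hτ.2⟩
          · intro τ _ τ' _ h
            exact Subtype.ext h
          · intro τ hτ
            rw [Finset.mem_filter, hmy] at hτ
            obtain ⟨⟨h2, h3⟩, h4⟩ := hτ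
            exact ⟨⟨τ, h2⟩, by simpa using ⟨h3, h4⟩, rfl⟩
        rw [← hcard]
        exact (ZMod.natCast_eq_zero_iff_even).1 h
      · have : y.filter (fun τ => e ⊆ τ) = ∅ := by
          rw [Finset.filter_eq_empty_iff]
          intro τ hτ hs
          apply hex
          rw [← heds]
          exact (CHI_eds z' e).2 ⟨τ, ((hmy τ).1 hτ).1, hs, he⟩
        rw [this]
        simp
    rcases hmin y hy (fun τ hτ => ((hmy τ).1 hτ).1) with h | h
    · left
      funext τ
      rcases CHI_z2 (w τ) with h0 | h1
      · exact h0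
      · exfalso
        have : τ.1 ∈ y := (hmy τ.1).2 ⟨τ.2, h1⟩
        rw [h] at this
        exact absurd this (Finset.notMem_empty _)
    · right
      funext τ
      by_cases hτ : τ.1 ∈ z
      · simp only [if_pos hτ]
        have : τ.1 ∈ y := by rw [h]; exact hτ
        obtain ⟨_, h2⟩ := (hmy τ.1).1 this
        exact h2
      · simp only [if_neg hτ]
        rcases CHI_z2 (w τ) with h0 | h1
        · exact h0
        · exact absurd (h ▸ (hmy τ.1).2 ⟨τ.2, h1⟩ : τ.1 ∈ z) hτ

end

end Pool.Agent.helper78.FS
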