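import Pool.Agent.helper87.FS.Spec

set_option autoImplicit false

namespace Pool.Agent.FS

open Polynomial Matrix Pool.Agent.helper42.NS

theorem DJI_gen {R : Type*} [CommRing R] [IsDomain R] {n : ℕ} (M : Matrix (Fin n) (Fin n) R) (hD : M.det ≠ 0)
    (s s' : Fin n) (h : s ≠ s') :
    M.det * (M.toSquareBlockProp (fun i => ¬ (i = s ∨ i = s'))).det =
      adjugate M s s * adjugate M s' s' - adjugate M s s' * adjugate M s' s := by
  classical
  set p : Fin n → Prop := fun i => i = s ∨ i = s' with hp
  set N : Matrix (Fin n) (Fin n) R := fun i j => if p j then adjugate M i j else if i = j then 1 else 0 with hN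
  have hcol : ∀ i j, p j → (M * N) i j = if i = j then M.det else 0 := by
    intro i j hj
    have h1 : (M * N) i j = (M * adjugate M) i j := by
      rw [Matrix.mul_apply, Matrix.mul_apply]
      refine Finset.sum_congr rfl fun k _ => ?_
      simp only [hN, if_pos hj]
    rw [h1, Matrix.mul_adjugate, Matrix.smul_apply, Matrix.one_apply]
    split_ifs <;> simp
  have hcol' : ∀ i j, ¬ p j → (M * N) i j = M i j := by
    intro i j hj
    rw [Matrix.mul_apply, Finset.sum_eq_single j]
    · simp only [hN, if_neg hj, if_true, mul_one]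
    · intro k _ hk
      simp only [hN, if_neg hj, if_neg hk, mul_zero]
    · intro hj'
      exact absurd (Finset.mem_univ j) hj'
  -- an equivalence with Fin 2
  have hps : p s := Or.inl rfl
  have hps' : p s' := Or.inr rfl
  let g : Fin 2 → {i // p i} := ![⟨s, hps⟩, ⟨s', hps'⟩]
  have hg : Function.Bijective g := by
    constructor
    · intro a b hab
      fin_cases a <;> fin_cases b <;> first | rfl | (exfalso; simp [g] at hab; first | exact h hab | exact h hab.symm)
    · rintro ⟨i, hi⟩
      rcases hi with rfl | rfl
      · exact ⟨0, rfl⟩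
      · exact ⟨1, rfl⟩
  let e : Fin 2 ≃ {i // p i} := Equiv.ofBijective g hg
  have he0 : (e 0 : Fin n) = s := rfl
  have he1 : (e 1 : Fin n) = s' := rfl
  -- det N
  have hdN : N.det = adjugate M s s * adjugate M s' s' - adjugate M s s' * adjugate M s' s := by
    rw [Matrix.twoBlockTriangular_det' N p]
    · have h1 : (N.toSquareBlockProp fun i => ¬ p i) = 1 := by
        ext i j
        have hj : ¬ p j.1 := j.2
        simp only [toSquareBlockProp_def, of_apply, hN, if_neg hj, Matrix.one_apply, Subtype.ext_iff]
      rw [h1, det_one, mul_one, ← Matrix.det_submatrix_equiv_self e, Matrix.det_fin_two]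
      simp only [submatrix_apply, toSquareBlockProp_def, of_apply, hN, he0, he1, if_pos hps, if_pos hps']
    · intro i hi j hj
      have hij : i ≠ j := fun hh => hj (hh ▸ hi)
      simp only [hN, if_neg hj, if_neg hij]
  have hdQ : (M * N).det = M.det * M.det * (M.toSquareBlockProp (fun i => ¬ p i)).det := by
    rw [Matrix.twoBlockTriangular_det (M * N) p]
    · have h1 : ((M * N).toSquareBlockProp fun i => ¬ p i) = M.toSquareBlockProp (fun i => ¬ p i) := by
        ext i j
        exact hcol' _ _ j.2
      have h2 : ((M * N).toSquareBlockProp p).det = M.det * M.det := by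
        rw [← Matrix.det_submatrix_equiv_self e, Matrix.det_fin_two]
        simp only [submatrix_apply, toSquareBlockProp_def, of_apply, he0, he1]
        rw [hcol _ _ hps, hcol _ _ hps', hcol _ _ hps', hcol _ _ hps, if_pos rfl, if_pos rfl, if_neg h, if_neg h.symm]
        ring
      rw [h1, h2]
    · intro i hi j hj
      have hij : i ≠ j := fun hh => hi (hh ▸ hj)
      rw [hcol _ _ hj, if_neg hij]
  have h3 := hdQ
  rw [det_mul, hdN] at h3
  have h4 : M.det * (M.det * (M.toSquareBlockProp (fun i => ¬ p i)).det) =
      M.det * (adjugate M s s * adjugate M s' s' - adjugate M s s' * adjugate M s' s) := by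
    rw [h3]; ring
  exact mul_left_cancel₀ hD h4

theorem DJI_det_eq {α β R : Type*} [CommRing R] (ia : Fintype α) (da : DecidableEq α) (ib : Fintype β) (db : DecidableEq β)
    (e : α ≃ β) (A : Matrix α α R) (B : Matrix β β R) (h : ∀ i j, A i j = B (e i) (e j)) : A.det = B.det := by
  rw [← det_submatrix_equiv_self e B]
  refine congrArg _ ?_
  ext i j
  exact h i j

theorem DJI_cm {α : Type*} (ia : Fintype α) (da : DecidableEq α) (M : Matrix α α ℤ) (i j : α) :
    charmatrix M i j = (Matrix.diagonal fun _ : α => (X : ℤ[X])) i j - C (M i j) := rfl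

theorem DJI : DJI_stmt := by
  classical
  intro n G s s' h
  have hD : (charmatrix (adj G)).det ≠ 0 := by
    have := (Matrix.charpoly_monic (adj G)).ne_zero
    exact this
  have hsym : (charmatrix (adj G))ᵀ = charmatrix (adj G) := by
    rw [← charmatrix_transpose]
    congr 1
    ext i j
    simp only [transpose_apply, adj, G.adj_comm]
  have hsym2 : adjugate (charmatrix (adj G)) s' s = adjugate (charmatrix (adj G)) s s' := by
    conv_lhs => rw [← hsym, ← adjugate_transpose, transpose_apply]
  have key := DJI_gen (charmatrix (adj G)) hD s s' h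
  rw [hsym2, ← pow_two] at key
  rw [← key]
  have hch : chp G {s, s'} = ((charmatrix (adj G)).toSquareBlockProp (fun i => ¬ (i = s ∨ i = s'))).det := by
    unfold chp Matrix.charpoly
    let e : {i : Fin n // ¬ (i = s ∨ i = s')} ≃ (({s, s'} : Set (Fin n))ᶜ : Set (Fin n)) :=
      Equiv.subtypeEquivRight (by intro x; simp)
    refine (DJI_det_eq _ _ _ _ e _ _ fun i j => ?_).symm
    have he : ∀ k : {i : Fin n // ¬ (i = s ∨ i = s')}, ((e k : _) : Fin n) = k.1 := fun k => rfl
    rw [toSquareBlockProp_def, of_apply, DJI_cm, DJI_cm]
    refine congrArg₂ (fun a b => a - b) ?_ ?_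
    · by_cases hij : i = j
      · subst hij
        rw [diagonal_apply_eq, diagonal_apply_eq]
      · rw [diagonal_apply_ne, diagonal_apply_ne]
        · exact fun hh => hij (e.injective hh)
        · exact fun hh => hij (Subtype.ext hh)
    · refine congrArg _ ?_
      rw [SimpleGraph.adjMatrix_apply]
      unfold adj
      simp only [SimpleGraph.comap_adj, he, Function.Embedding.subtype_apply]
  rw [hch]
  rfl

end Pool.Agent.FS
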